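import Pool.Agent.Y118.HG.Defs2
import Pool.Agent.Y113.P.Fin

/-!
# Project HG: G-systems of monomials and products over shifts (`T_mon`)
-/

set_option autoImplicit false

open PowerSeries Finset.HasAntidiagonal

namespace Pool.Agent.Y678.HG

open Pool.Agent.Y113 Pool.Agent.Y118.HG

/-- change of family with rational matrices, common denominator `N0` -/
theorem famQ (N q : ℕ) : ∃ E : ℕ, ∀ (ι κ : Type) [Fintype ι] [Fintype κ] (C : ℝ) (T : Polynomial ℤ)
    (y : ι → ℚ⟦X⟧) (w : κ → ℚ⟦X⟧) (N0 : ℕ) (M : κ → ι → ℤ) (M' : ι → κ → ℤ),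
    Fintype.card ι ≤ N → Fintype.card κ ≤ N → 0 < N0 → (N0 : ℝ) ≤ C →
    GSys q C T y → (∀ j i, |((M j i : ℤ) : ℝ)| ≤ C) → (∀ i j, |((M' i j : ℤ) : ℝ)| ≤ C) →
    (∀ j, (N0 : ℚ⟦X⟧) * w j = ∑ i, (M j i : ℚ⟦X⟧) * y i) →
    (∀ i, (N0 : ℚ⟦X⟧) * y i = ∑ j, (M' i j : ℚ⟦X⟧) * w j) →
    GSys q ((2 * C) ^ E) T w := by
  refine ⟨2 * N + 3, ?_⟩
  intro ι κ _ _ C T y w N0 M M' hι hκ hN0 hN0C hy hM hM' hw hyw
  have hC := hy.one_le
  have hC0 : 0 < C := zero_lt_one.trans_le hC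
  have h2C : 1 ≤ 2 * C := by linarith
  have hCC : C ≤ (2 * C) ^ (2 * N + 3) := by
    calc C ≤ 2 * C := by linarith
      _ = (2 * C) ^ 1 := (pow_one _).symm
      _ ≤ _ := pow_le_pow_right₀ h2C (by omega)
  have hC3 : ∀ m : ℕ, C ^ (m + 1) * C ^ 2 ≤ ((2 * C) ^ (2 * N + 3)) ^ (m + 1) := fun m => by
    calc C ^ (m + 1) * C ^ 2 ≤ C ^ (m + 1) * (C ^ 2) ^ (m + 1) := by
          refine mul_le_mul_of_nonneg_left ?_ (by positivity)
          exact le_self_pow₀ (one_le_pow₀ hC) (by omega)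
      _ = (C ^ 3) ^ (m + 1) := by rw [← mul_pow]; ring_nf
      _ ≤ _ := by
          refine pow_le_pow_left₀ (by positivity) ?_ _
          calc C ^ 3 ≤ (2 * C) ^ 3 := pow_le_pow_left₀ hC0.le (by linarith) _
            _ ≤ _ := pow_le_pow_right₀ h2C (by omega)
  have hN : (Fintype.card ι : ℝ) ≤ 2 ^ N := by
    have h1 : (Fintype.card ι : ℝ) ≤ N := by exact_mod_cast hι
    have := succ_le_two_pow N
    linarith
  have hN0R : (1 : ℝ) ≤ N0 := by exact_mod_cast hN0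
  have hN0c : (N0 : ℚ⟦X⟧) = PowerSeries.C (N0 : ℚ) := by simp
  have hMc : ∀ j i, (M j i : ℚ⟦X⟧) = PowerSeries.C (M j i : ℚ) := fun j i => by simp
  have hwc : ∀ j m, (N0 : ℚ) * coeff m (w j) = ∑ i, (M j i : ℚ) * coeff m (y i) := by
    intro j m
    have h1 := congrArg (coeff m) (hw j)
    rw [hN0c, coeff_C_mul, map_sum] at h1
    rw [h1]
    refine Finset.sum_congr rfl fun i _ => ?_
    rw [hMc, coeff_C_mul]
  refine ⟨one_le_pow₀ h2C, hy.degT, fun l => (hy.sizeT l).trans hCC, ?_, ?_, ?_⟩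
  · intro j m
    have e0 : |((coeff m (w j) : ℚ) : ℝ)| ≤ |((((N0 : ℚ) * coeff m (w j) : ℚ)) : ℝ)| := by
      push_cast
      rw [abs_mul, abs_of_nonneg (by positivity : (0 : ℝ) ≤ N0)]
      exact le_mul_of_one_le_left (abs_nonneg _) hN0R
    refine e0.trans ?_
    rw [hwc j m]
    push_cast
    refine (Finset.abs_sum_le_sum_abs _ _).trans ?_
    refine (Finset.sum_le_card_nsmul _ _ (C * C ^ (m + 1)) fun i _ => ?_).trans ?_
    · rw [abs_mul]
      exact mul_le_mul (hM j i) (hy.size i m) (abs_nonneg _) hC0.le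
    · rw [nsmul_eq_mul, Finset.card_univ]
      calc (Fintype.card ι : ℝ) * (C * C ^ (m + 1)) ≤ (2 ^ N) ^ (m + 1) * (C ^ (m + 1) * C ^ (m + 1)) := by
            refine mul_le_mul (hN.trans (le_self_pow₀ (one_le_pow₀ (by norm_num)) (by omega))) ?_ (by positivity)
              (by positivity)
            exact mul_le_mul_of_nonneg_right (le_self_pow₀ hC (by omega)) (by positivity)
        _ = (2 ^ N * C ^ 2) ^ (m + 1) := by
            rw [← mul_pow, ← mul_pow]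
            congr 1
            ring
        _ ≤ _ := by
            refine pow_le_pow_left₀ (by positivity) ?_ _
            rw [mul_pow]
            exact mul_le_mul (pow_le_pow_right₀ (by norm_num) (by omega)) (pow_le_pow_right₀ hC (by omega))
              (by positivity) (by positivity)
  · intro m
    obtain ⟨d, hd0, hd, hd'⟩ := hy.den m
    refine ⟨d * N0, Nat.mul_pos hd0 hN0, ?_, fun j l hl => ?_⟩
    · push_cast
      refine le_trans ?_ (hC3 m)
      refine mul_le_mul hd (hN0C.trans (le_self_pow₀ hC (by omega))) (by positivity) (by positivity)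
    · choose a ha using fun i => hd' i l hl
      refine ⟨∑ i, M j i * a i, ?_⟩
      push_cast
      rw [mul_assoc, hwc j l, Finset.mul_sum]
      refine Finset.sum_congr rfl fun i _ => ?_
      rw [← ha i]
      ring
  · intro k
    obtain ⟨g, hg0, hg, hg'⟩ := hy.der k
    refine ⟨g * N0 ^ 2, Nat.mul_pos hg0 (pow_pos hN0 2), ?_, fun s hs => ?_⟩
    · push_cast
      refine le_trans ?_ (hC3 k)
      exact mul_le_mul hg (pow_le_pow_left₀ (by positivity) hN0C _) (by positivity) (by positivity)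
    obtain ⟨G, h1, h2, h3⟩ := hg' s hs
    have hB : ∀ j j', Bd (q * s) (Fintype.card ι * (Fintype.card ι * (C * (C * C ^ (k + 1)))))
        (∑ i, ∑ i', Polynomial.C (M j i) * (Polynomial.C (M' i' j') * G i i')) := by
      intro j j'
      rw [← Finset.card_univ]
      refine Bd.sum _ fun i _ => Bd.sum _ fun i' _ => ?_
      exact Bd.C_mul (Bd.C_mul ⟨h1 i i', h2 i i'⟩ (hM' i' j')) (hM j i)
    refine ⟨fun j j' => ∑ i, ∑ i', Polynomial.C (M j i) * (Polynomial.C (M' i' j') * G i i'),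
      fun j j' => (hB j j').1, fun j j' l => ((hB j j').2 l).trans ?_, fun j => ?_⟩
    · calc (Fintype.card ι : ℝ) * (Fintype.card ι * (C * (C * C ^ (k + 1))))
          ≤ (2 ^ N) ^ (k + 1) * ((2 ^ N) ^ (k + 1) * (C ^ (k + 1) * (C ^ (k + 1) * C ^ (k + 1)))) := by
            have e1 : (Fintype.card ι : ℝ) ≤ (2 ^ N) ^ (k + 1) :=
              hN.trans (le_self_pow₀ (one_le_pow₀ (by norm_num)) (by omega))
            have e2 : C ≤ C ^ (k + 1) := le_self_pow₀ hC (by omega)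
            refine mul_le_mul e1 (mul_le_mul e1 ?_ (by positivity) (by positivity)) (by positivity) (by positivity)
            refine mul_le_mul e2 ?_ (by positivity) (by positivity)
            exact mul_le_mul_of_nonneg_right e2 (by positivity)
        _ = (2 ^ (2 * N) * C ^ 3) ^ (k + 1) := by
            rw [← mul_pow, ← mul_pow, ← mul_pow, ← mul_pow]
            congr 1
            rw [show 2 * N = N + N by ring, pow_add]
            ring
        _ ≤ _ := by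
            refine pow_le_pow_left₀ (by positivity) ?_ _
            rw [mul_pow]
            exact mul_le_mul (pow_le_pow_right₀ (by norm_num) (by omega)) (pow_le_pow_right₀ hC (by omega))
              (by positivity) (by positivity)
    · have e0 : ((g * N0 ^ 2 : ℕ) : ℚ⟦X⟧) * (ps T ^ s * hd s (w j)) =
          (N0 : ℚ⟦X⟧) * ((g : ℚ⟦X⟧) * (ps T ^ s * hd s ((N0 : ℚ⟦X⟧) * w j))) := by
        have : hd s ((N0 : ℚ⟦X⟧) * w j) = (N0 : ℚ⟦X⟧) * hd s (w j) := by
          rw [hN0c, hd_C_mul]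
        rw [this]
        push_cast
        ring
      rw [e0, hw j, hd_sum, Finset.mul_sum, Finset.mul_sum, Finset.mul_sum]
      have e1 : ∀ i ∈ Finset.univ, (N0 : ℚ⟦X⟧) * ((g : ℚ⟦X⟧) * (ps T ^ s * hd s ((M j i : ℚ⟦X⟧) * y i))) =
          ∑ i', ∑ j', (M j i : ℚ⟦X⟧) * (ps (G i i') * ((M' i' j' : ℚ⟦X⟧) * w j')) := by
        intro i _
        have e3 : hd s ((M j i : ℚ⟦X⟧) * y i) = (M j i : ℚ⟦X⟧) * hd s (y i) := by
          rw [hMc, hd_C_mul]
        have e4 : (N0 : ℚ⟦X⟧) * ((g : ℚ⟦X⟧) * (ps T ^ s * hd s ((M j i : ℚ⟦X⟧) * y i))) =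
            (M j i : ℚ⟦X⟧) * ((N0 : ℚ⟦X⟧) * ((g : ℚ⟦X⟧) * (ps T ^ s * hd s (y i)))) := by
          rw [e3]; ring
        rw [e4, h3 i, Finset.mul_sum, Finset.mul_sum]
        refine Finset.sum_congr rfl fun i' _ => ?_
        have e5 : (N0 : ℚ⟦X⟧) * (ps (G i i') * y i') = ps (G i i') * ((N0 : ℚ⟦X⟧) * y i') := by ring
        rw [e5, hyw i', Finset.mul_sum, Finset.mul_sum]
      rw [Finset.sum_congr rfl e1]
      simp only [ps_sum, Finset.sum_mul, ps_mul, ps_C]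
      rw [Finset.sum_comm' (s := Finset.univ) (t := fun _ => Finset.univ) (t' := Finset.univ) (s' := fun _ => Finset.univ)
        (by simp)]
      rw [Finset.sum_comm]
      symm
      rw [Finset.sum_comm]
      refine Finset.sum_congr rfl fun i _ => ?_
      rw [Finset.sum_comm]
      refine Finset.sum_congr rfl fun i' _ => ?_
      refine Finset.sum_congr rfl fun j' _ => ?_
      ring

/-- all products of `Δ` functions of a family -/
lemma words {σ : Type} [Fintype σ] {q : ℕ} {TT : ℕ → Polynomial ℤ} {z : ℕ → σ → ℚ⟦X⟧} {E₀ : ℕ}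
    (hE₀ : ∀ g : ℕ, GSys q (((g : ℝ) + 2) ^ E₀) (TT g) (z g)) (Δ : ℕ) : ∃ E : ℕ, ∀ g : ℕ,
    GSys q (((g : ℝ) + 2) ^ E) (TT g) (fun f : Fin Δ → σ => ∏ i, z g (f i)) := by
  obtain ⟨E₁, hE₁⟩ := t_prod q
  induction Δ with
  | zero =>
    refine ⟨E₀, fun g => ?_⟩
    have h1 := GSys.const (ι := Fin 0 → σ) (hE₀ g).one_le (hE₀ g).degT (hE₀ g).sizeT
    simpa using h1
  | succ Δ ih =>
    obtain ⟨E, hE⟩ := ih
    refine ⟨(max E₀ E + 1) * E₁, fun g => ?_⟩
    have h1 := (hE₀ g).mono le_rfl (base_mono (one_le_base g) (le_max_left E₀ E))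
    have h2 := (hE g).mono le_rfl (base_mono (one_le_base g) (le_max_right E₀ E))
    have h3 := (hE₁ _ _ _ _ _ _ h1 h2).mono le_rfl (pow_base g _ _)
    have h4 := h3.reindex (Fin.consEquiv fun _ => σ).symm
    have h5 : (fun f : Fin (Δ + 1) → σ => ∏ i, z g (f i)) = fun j =>
        z g ((Fin.consEquiv fun _ => σ).symm j).1 * ∏ i, z g (((Fin.consEquiv fun _ => σ).symm j).2 i) := by
      funext f
      rw [Fin.prod_univ_succ]
      rfl
    rw [h5]
    exact h4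

lemma single_prod {ι : Type} [Fintype ι] [DecidableEq ι] (z : ι → ℚ⟦X⟧) (i₀ : ι) :
    ∏ i, z i ^ (Pi.single i₀ 1 : ι → ℕ) i = z i₀ := by
  rw [Finset.prod_eq_single i₀]
  · simp
  · intro j _ hj; simp [hj]
  · simp

lemma exists_word {ι : Type} [Fintype ι] (Δ : ℕ) : ∀ e : ι → ℕ, ∑ i, e i ≤ Δ →
    ∃ f : Fin Δ → Option ι, ∀ z : ι → ℚ⟦X⟧, ∏ i, ((f i).elim 1 z : ℚ⟦X⟧) = ∏ i, z i ^ e i := by
  classical
  induction Δ with
  | zero =>
    intro e he
    have h1 : ∀ i, e i = 0 := fun i => by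
      have := Finset.single_le_sum (f := e) (fun _ _ => Nat.zero_le _) (Finset.mem_univ i)
      omega
    exact ⟨fun i => none, fun z => by simp [h1]⟩
  | succ Δ ih =>
    intro e he
    by_cases h0 : ∀ i, e i = 0
    · exact ⟨fun i => none, fun z => by simp [h0]⟩
    · push Not at h0
      obtain ⟨i₀, hi₀⟩ := h0
      have e1 : e = Function.update e i₀ (e i₀ - 1) + Pi.single i₀ 1 := by
        funext i
        by_cases hi : i = i₀
        · subst hi; simp; omega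
        · simp [hi]
      have e2 : ∑ i, e i = (∑ i, Function.update e i₀ (e i₀ - 1) i) + 1 := by
        conv_lhs => rw [e1]
        simp [Finset.sum_add_distrib]
      obtain ⟨f, hf⟩ := ih (Function.update e i₀ (e i₀ - 1)) (by omega)
      refine ⟨Fin.cons (some i₀) f, fun z => ?_⟩
      rw [Fin.prod_univ_succ]
      simp only [Fin.cons_zero, Fin.cons_succ, Option.elim]
      have hf' := hf z
      simp only [Option.elim] at hf'
      rw [hf']
      have e3 : ∏ i, z i ^ e i = (∏ i, z i ^ (Function.update e i₀ (e i₀ - 1)) i) *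
          ∏ i, z i ^ (Pi.single i₀ 1 : ι → ℕ) i := by
        rw [← Finset.prod_mul_distrib]
        refine Finset.prod_congr rfl fun i _ => ?_
        rw [← pow_add]
        congr 1
        exact congrFun e1 i
      rw [e3, single_prod, mul_comm]

lemma word_exp {ι : Type} [Fintype ι] (Δ : ℕ) : ∀ f : Fin Δ → Option ι, ∃ e : ι → ℕ, ∑ i, e i ≤ Δ ∧
    ∀ z : ι → ℚ⟦X⟧, ∏ i, ((f i).elim 1 z : ℚ⟦X⟧) = ∏ i, z i ^ e i := by
  classical
  induction Δ with
  | zero => exact fun f => ⟨fun _ => 0, by simp, fun z => by simp⟩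
  | succ Δ ih =>
    intro f
    obtain ⟨e, he, he'⟩ := ih (fun i => f i.succ)
    rcases h0 : f 0 with _ | j
    · refine ⟨e, he.trans (by omega), fun z => ?_⟩
      rw [Fin.prod_univ_succ, h0, he' z]
      simp
    · refine ⟨e + Pi.single j 1, ?_, fun z => ?_⟩
      · simp [Finset.sum_add_distrib]; omega
      · rw [Fin.prod_univ_succ, h0, he' z]
        simp only [Option.elim, Pi.add_apply, pow_add, Finset.prod_mul_distrib]
        rw [single_prod, mul_comm]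

/-- integral multiples of finitely many rational numbers -/
lemma common_den {α β : Type} [Fintype α] [Fintype β] (R : α → β → ℚ) :
    ∃ (N0 : ℕ) (P : α → β → ℤ), 0 < N0 ∧ ∀ a b, (N0 : ℚ) * R a b = P a b := by
  classical
  refine ⟨∏ a, ∏ b, (R a b).den, fun a b => ((∏ a, ∏ b, (R a b).den : ℕ) : ℤ) / (R a b).den * (R a b).num,
    Finset.prod_pos fun a _ => Finset.prod_pos fun b _ => (R a b).den_pos, fun a b => ?_⟩
  have hdvd : (((R a b).den : ℕ) : ℤ) ∣ ((∏ a, ∏ b, (R a b).den : ℕ) : ℤ) := by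
    have h1 : (R a b).den ∣ ∏ a, ∏ b, (R a b).den :=
      (Finset.dvd_prod_of_mem (fun b => (R a b).den) (Finset.mem_univ b)).trans
        (Finset.dvd_prod_of_mem (fun a => ∏ b, (R a b).den) (Finset.mem_univ a))
    exact_mod_cast h1
  have hne : (((R a b).den : ℕ) : ℤ) ≠ 0 := by exact_mod_cast (R a b).den_ne_zero
  rw [Int.cast_mul, Int.cast_div hdvd (by exact_mod_cast hne)]
  conv_lhs => rw [← Rat.num_div_den (R a b)]
  push_cast
  ring

/-- a natural number is at most a power of two -/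
lemma exists_two_pow (x : ℝ) : ∃ c : ℕ, x ≤ 2 ^ c := by
  obtain ⟨n, hn⟩ := exists_nat_ge x
  refine ⟨n, hn.trans ?_⟩
  have := succ_le_two_pow n
  linarith

/-- the monomials form a G-system -/
lemma gsys_mon {ι κ : Type} [Fintype ι] [Fintype κ] (Δ : ℕ) (b : κ → ι → ℕ) (R : (ι → ℕ) → κ → ℚ)
    (TT : ℕ → Polynomial ℤ) (y : ℕ → ι → ℚ⟦X⟧) (q E₀ : ℕ) (hb : ∀ k, ∑ i, b k i ≤ Δ)
    (hR : ∀ (g : ℕ) (s : ι → ℕ), ∑ i, s i ≤ Δ →
      ∏ i, y g i ^ s i = ∑ k, PowerSeries.C (R s k) * ∏ i, y g i ^ b k i)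
    (hy : ∀ g : ℕ, GSys q (((g : ℝ) + 2) ^ E₀) (TT g) (fun o : Option ι => o.elim 1 (y g))) :
    ∃ E : ℕ, ∀ g : ℕ, GSys q (((g : ℝ) + 2) ^ E) (TT g) (fun k : κ => ∏ i, y g i ^ b k i) := by
  classical
  obtain ⟨E, hE⟩ := words hy Δ
  obtain ⟨E₁, hE₁⟩ := famQ (max (Fintype.card (Fin Δ → Option ι)) (Fintype.card κ)) q
  -- words
  choose wf hwf using fun k => exists_word Δ (b k) (hb k)
  choose ex hex1 hex2 using word_exp (ι := ι) Δ
  obtain ⟨N0, P, hN0, hP⟩ := common_den (fun (f : Fin Δ → Option ι) (k : κ) => R (ex f) k)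
  -- constants
  obtain ⟨c, hc⟩ := exists_two_pow ((N0 : ℝ) + ∑ f : Fin Δ → Option ι, ∑ k : κ, |((P f k : ℤ) : ℝ)|)
  have hPnn : 0 ≤ ∑ f : Fin Δ → Option ι, ∑ k : κ, |((P f k : ℤ) : ℝ)| :=
    Finset.sum_nonneg fun f _ => Finset.sum_nonneg fun k _ => abs_nonneg _
  have hc1 : (N0 : ℝ) ≤ 2 ^ c := by linarith
  have hc2 : ∀ f k, |((P f k : ℤ) : ℝ)| ≤ 2 ^ c := by
    intro f k
    have h1 : |((P f k : ℤ) : ℝ)| ≤ ∑ k : κ, |((P f k : ℤ) : ℝ)| :=
      Finset.single_le_sum (f := fun k => |((P f k : ℤ) : ℝ)|) (fun _ _ => abs_nonneg _) (Finset.mem_univ k)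
    have h2 : ∑ k : κ, |((P f k : ℤ) : ℝ)| ≤ ∑ f : Fin Δ → Option ι, ∑ k : κ, |((P f k : ℤ) : ℝ)| :=
      Finset.single_le_sum (f := fun f => ∑ k : κ, |((P f k : ℤ) : ℝ)|)
        (fun _ _ => Finset.sum_nonneg fun k _ => abs_nonneg _) (Finset.mem_univ f)
    have h3 : (0 : ℝ) ≤ N0 := Nat.cast_nonneg _
    linarith
  refine ⟨(E + c + 1) * E₁, fun g => ?_⟩
  have hg1 := one_le_base g
  have hg2 : (2 : ℝ) ^ c ≤ ((g : ℝ) + 2) ^ (E + c) := by
    calc (2 : ℝ) ^ c ≤ ((g : ℝ) + 2) ^ c :=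
          pow_le_pow_left₀ (by norm_num) (by linarith [show (0 : ℝ) ≤ g by positivity]) _
      _ ≤ _ := base_mono hg1 (by omega)
  have h1 := (hE g).mono le_rfl (base_mono hg1 (show E ≤ E + c by omega))
  have h2 := hE₁ (Fin Δ → Option ι) κ (((g : ℝ) + 2) ^ (E + c)) (TT g)
    (fun f => ∏ i, ((f i).elim 1 (y g) : ℚ⟦X⟧)) (fun k => ∏ i, y g i ^ b k i) N0
    (fun k f => if f = wf k then (N0 : ℤ) else 0) P (le_max_left _ _) (le_max_right _ _) hN0
    (hc1.trans hg2) h1 ?_ ?_ ?_ ?_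
  · exact h2.mono le_rfl (pow_base g _ _)
  · intro e f
    split_ifs
    · push_cast
      rw [abs_of_nonneg (Nat.cast_nonneg _)]
      exact hc1.trans hg2
    · simp; positivity
  · intro f s
    exact (hc2 f s).trans hg2
  · intro k
    rw [Finset.sum_eq_single (wf k)]
    · rw [if_pos rfl, hwf k (y g)]
      simp
    · intro f _ hf
      rw [if_neg hf]
      simp
    · intro h
      exact absurd (Finset.mem_univ _) h
  · intro f
    have e1 : ∏ i, ((f i).elim 1 (y g) : ℚ⟦X⟧) = ∏ i, y g i ^ ex f i := hex2 f (y g)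
    change (N0 : ℚ⟦X⟧) * ∏ i, ((f i).elim 1 (y g) : ℚ⟦X⟧) = _
    rw [e1, hR g (ex f) (hex1 f), Finset.mul_sum]
    refine Finset.sum_congr rfl fun k _ => ?_
    rw [← mul_assoc]
    congr 1
    have e2 : (N0 : ℚ⟦X⟧) = PowerSeries.C (N0 : ℚ) := by simp
    have e3 : (P f k : ℚ⟦X⟧) = PowerSeries.C (P f k : ℚ) := by simp
    rw [e2, e3, ← map_mul, hP]

/-- the products over several shifts -/
lemma gsys_prod {κ : Type} [Fintype κ] (TT : ℕ → Polynomial ℤ) (m : ℕ → κ → ℚ⟦X⟧) (q₀ E₀ : ℕ)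
    (hE₀ : ∀ g : ℕ, GSys q₀ (((g : ℝ) + 2) ^ E₀) (TT g) (m g)) (r : ℕ) :
    ∃ q' E' : ℕ, ∀ (H : ℕ) (g : Fin r → ℕ), (∀ l, g l ≤ H) →
      GSys q' (((H : ℝ) + 2) ^ E') (∏ l, TT (g l)) (fun e : Fin r → κ => ∏ l, m (g l) (e l)) := by
  induction r with
  | zero =>
    refine ⟨0, 0, fun H g _ => ?_⟩
    have h1 : GSys 0 (1 : ℝ) 1 (fun _ : Fin 0 → κ => (1 : ℚ⟦X⟧)) := by
      refine GSys.const le_rfl (by simp) fun l => ?_
      rw [Polynomial.coeff_one]
      split_ifs <;> simp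
    simpa using h1
  | succ k ih =>
    obtain ⟨q, E, hE⟩ := ih
    obtain ⟨E₁, hE₁⟩ := t_enl q₀ q
    obtain ⟨E₂, hE₂⟩ := t_enl q q₀
    obtain ⟨E₃, hE₃⟩ := t_prod (q + q₀)
    set E' := max E₀ E with hE'
    set E'' := (E' + 1) * (max E₁ E₂) with hE''
    refine ⟨q + q₀, (E'' + 1) * E₃, fun H g hg => ?_⟩
    have hg1 := one_le_base H
    have hgH : ((g 0 : ℕ) : ℝ) + 2 ≤ (H : ℝ) + 2 := by
      have : ((g 0 : ℕ) : ℝ) ≤ H := by exact_mod_cast hg 0
      linarith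
    have h1 : GSys q₀ (((H : ℝ) + 2) ^ E') (TT (g 0)) (m (g 0)) := by
      refine (hE₀ (g 0)).mono le_rfl ?_
      exact (pow_le_pow_left₀ (by positivity) hgH _).trans (base_mono hg1 (le_max_left _ _))
    have h2 : GSys q (((H : ℝ) + 2) ^ E') (∏ l : Fin k, TT (g l.succ))
        (fun e : Fin k → κ => ∏ l, m (g l.succ) (e l)) :=
      (hE H (fun l : Fin k => g l.succ) fun l => hg l.succ).mono le_rfl (base_mono hg1 (le_max_right _ _))
    have h3 := hE₁ _ _ _ (∏ l : Fin k, TT (g l.succ)) _ h1 h2.degT h2.sizeT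
    have h4 := hE₂ _ _ _ (TT (g 0)) _ h2 h1.degT h1.sizeT
    have hE1 : (2 * ((H : ℝ) + 2) ^ E') ^ E₁ ≤ ((H : ℝ) + 2) ^ E'' := by
      refine (pow_base H _ _).trans (base_mono hg1 ?_)
      exact Nat.mul_le_mul_left _ (le_max_left _ _)
    have hE2 : (2 * ((H : ℝ) + 2) ^ E') ^ E₂ ≤ ((H : ℝ) + 2) ^ E'' := by
      refine (pow_base H _ _).trans (base_mono hg1 ?_)
      exact Nat.mul_le_mul_left _ (le_max_right _ _)
    have hPT : ∏ l, TT (g l) = TT (g 0) * ∏ l : Fin k, TT (g l.succ) := Fin.prod_univ_succ _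
    have h5 : GSys (q + q₀) (((H : ℝ) + 2) ^ E'') (∏ l, TT (g l)) (m (g 0)) := by
      rw [hPT]
      exact h3.mono (by omega) hE1
    have h6 : GSys (q + q₀) (((H : ℝ) + 2) ^ E'') (∏ l, TT (g l))
        (fun e : Fin k → κ => ∏ l, m (g l.succ) (e l)) := by
      rw [hPT, mul_comm]
      exact h4.mono le_rfl hE2
    have h7 := (hE₃ _ _ _ _ _ _ h5 h6).mono le_rfl (pow_base H _ _)
    have h8 := h7.reindex (Fin.consEquiv fun _ => κ).symm
    have h9 : (fun e : Fin (k + 1) → κ => ∏ l, m (g l) (e l)) = fun j =>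
        m (g 0) ((Fin.consEquiv fun _ => κ).symm j).1 *
          ∏ l, m (g l.succ) (((Fin.consEquiv fun _ => κ).symm j).2 l) := by
      funext b
      rw [Fin.prod_univ_succ]
      rfl
    rw [h9]
    exact h8

theorem t_mon : T_mon := by
  intro ι κ _ _ Δ b R TT y q E hb hR hy r
  obtain ⟨E₀, hE₀⟩ := gsys_mon Δ b R TT y q E hb hR hy
  exact gsys_prod TT (fun g k => ∏ i, y g i ^ b k i) q E₀ hE₀ r

end Pool.Agent.Y678.HG
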